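import Mathlib

namespace Pool.Agent.Results.MP_e84edf_an.Counter
open MeasureTheory Matrix
open scoped ENNReal InnerProductSpace ComplexConjugate

/-- the unit circle, `z = fourier 1 x` -/
abbrev Cir : Type := AddCircle (1 : ℝ)
/-- normalized Lebesgue measure -/
noncomputable abbrev μ : Measure Cir := AddCircle.haarAddCircle
abbrev E (n : ℕ) : Type := EuclideanSpace ℂ (Fin n)
abbrev Mat (n : ℕ) : Type := Matrix (Fin n) (Fin n) ℂ

/-- square integrable `ℂ ^ n`-valued functions on the circle -/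
def Leb (n : ℕ) : Type := Lp (E n) 2 μ
noncomputable instance i1 (n : ℕ) : NormedAddCommGroup (Leb n) := Lp.instNormedAddCommGroup
noncomputable instance i2 (n : ℕ) : InnerProductSpace ℂ (Leb n) := L2.innerProductSpace
/-- the underlying function -/
noncomputable def fn {n : ℕ} (f : Leb n) : Cir → E n := (id f : Lp (E n) 2 μ)

/-- the vector Hardy space: functions orthogonal to all `z ^ k v` with `k < 0` -/
noncomputable def Har (n : ℕ) : Submodule ℂ (Leb n) :=
  (Submodule.span ℂ {g : Leb n | ∃ k < (0 : ℤ), ∃ v : E n, fn g =ᵐ[μ] fun x => fourier k x • v})ᗮ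

/-- the Hardy space as a Hilbert space -/
def Hardy (n : ℕ) : Type := Har n
noncomputable instance j1 (n : ℕ) : NormedAddCommGroup (Hardy n) :=
  Submodule.normedAddCommGroup (Har n)
noncomputable instance j2 (n : ℕ) : InnerProductSpace ℂ (Hardy n) :=
  Submodule.innerProductSpace (Har n)

/-- `T f = P (Φ f)`: `T f` lies in the Hardy space and `Φ f - T f` is orthogonal to it -/
def IsToeplitz {n : ℕ} (Φ : Cir → Mat n) (T : Hardy n →L[ℂ] Hardy n) : Prop :=
  ∀ f : Hardy n, ∃ g : Leb n, (fn g =ᵐ[μ] fun x => toEuclideanCLM (𝕜 := ℂ) (Φ x) (fn f.1 x)) ∧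
    g - (T f).1 ∈ (Har n)ᗮ

/-- `T* T = T T*` -/
def Normal {H : Type} [NormedAddCommGroup H] [InnerProductSpace ℂ H] (T : H →L[ℂ] H) : Prop :=
  ∃ S : H →L[ℂ] H, (∀ x y, ⟪T x, y⟫_ℂ = ⟪x, S y⟫_ℂ) ∧ S * T = T * S

/-- negative Fourier coefficients vanish -/
def Analytic {n : ℕ} (Φ : Cir → Mat n) : Prop :=
  ∀ i j, ∀ k < (0 : ℤ), fourierCoeff (fun x => Φ x i j) k = 0

/-- finite Blaschke–Potapov products -/
def Potapov {n : ℕ} (B : Cir → Mat n) : Prop :=
  ∃ V ∈ unitaryGroup (Fin n) ℂ, ∃ l : List (ℂ × Mat n),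
    (∀ p ∈ l, ‖p.1‖ < 1 ∧ p.2 * p.2 = p.2 ∧ p.2ᴴ = p.2 ∧ p.2 ≠ 0) ∧ ∀ x, B x = V *
      (l.map fun p => ((fourier 1 x - p.1) / (1 - conj p.1 * fourier 1 x)) • p.2 + (1 - p.2)).prod

/-- restriction of a normal operator to an invariant subspace -/
def Subnormal {H : Type} [NormedAddCommGroup H] [InnerProductSpace ℂ H] (T : H →L[ℂ] H) : Prop :=
  ∃ (K : Type) (_ : NormedAddCommGroup K) (_ : InnerProductSpace ℂ K) (_ : CompleteSpace K)
    (N : K →L[ℂ] K) (V : H →ₗᵢ[ℂ] K), Normal N ∧ ∀ f, N (V f) = V (T f)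

abbrev L2 (n : ℕ) : Type := Lp (E n) 2 μ

noncomputable abbrev H2 (n : ℕ) : Submodule ℂ (L2 n) :=
  (Submodule.span ℂ {g : L2 n | ∃ k < (0 : ℤ), ∃ v : E n, g =ᵐ[μ] fun x => fourier k x • v})ᗮ

lemma normal_iff {H : Type} [NormedAddCommGroup H] [InnerProductSpace ℂ H] [CompleteSpace H]
    (T : H →L[ℂ] H) : Normal T ↔ IsStarNormal T := by
  constructor
  · rintro ⟨S, h1, h2⟩
    have : T = ContinuousLinearMap.adjoint S := (ContinuousLinearMap.eq_adjoint_iff _ _).2 h1
    have e : star T = S := by rw [this, ContinuousLinearMap.star_eq_adjoint,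
      ContinuousLinearMap.adjoint_adjoint]
    exact ⟨by rw [e]; exact h2⟩
  · exact fun h => ⟨star T, fun x y => (ContinuousLinearMap.adjoint_inner_right T x y).symm,
      h.star_comm_self.eq⟩

variable {n : ℕ}

noncomputable def m (j : ℤ) (C : E n →L[ℂ] E n) : L2 n →L[ℂ] L2 n :=
  (ContinuousLinearMap.id ℂ (E n →L[ℂ] E n)).holderL μ ∞ 2 2
    (ContinuousMap.toLp ∞ μ ℂ ⟨fun x => fourier j x • C, by fun_prop⟩)

lemma m_ae (j : ℤ) (C : E n →L[ℂ] E n) (f : L2 n) :
    m j C f =ᵐ[μ] fun x => fourier j x • C (f x) := by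
  have h1 := (ContinuousLinearMap.id ℂ (E n →L[ℂ] E n)).coeFn_holder (r := 2)
    (ContinuousMap.toLp ∞ μ ℂ ⟨fun x => fourier j x • C, by fun_prop⟩) f
  filter_upwards [h1, ContinuousMap.coeFn_toLp (p := ∞) (𝕜 := ℂ) μ
    (⟨fun x => fourier j x • C, by fun_prop⟩ : C(Cir, E n →L[ℂ] E n))] with x hx hy
  simp only [m, ContinuousLinearMap.holderL_apply_apply]
  rw [hx, hy]; simp

lemma m_mul (j k : ℤ) (C D : E n →L[ℂ] E n) : m j C * m k D = m (j + k) (C * D) := by
  ext1 f
  apply Lp.ext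
  filter_upwards [m_ae j C (m k D f), m_ae k D f, m_ae (j + k) (C * D) f] with x h1 h2 h3
  rw [ContinuousLinearMap.mul_apply, h1, h2, h3, fourier_add]
  simp [smul_smul]

lemma m_zero (j : ℤ) : m j (0 : E n →L[ℂ] E n) = 0 := by
  ext1 f
  apply Lp.ext
  filter_upwards [m_ae j 0 f, Lp.coeFn_zero (E n) 2 μ] with x h1 h2
  rw [h1, ContinuousLinearMap.zero_apply, ContinuousLinearMap.zero_apply, h2]
  simp

lemma m_star (j : ℤ) (C : E n →L[ℂ] E n) : star (m j C) = m (-j) (star C) := by
  symm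
  rw [ContinuousLinearMap.star_eq_adjoint (m j C), ContinuousLinearMap.eq_adjoint_iff]
  intro f g
  rw [L2.inner_def, L2.inner_def]
  apply integral_congr_ae
  filter_upwards [m_ae j C g, m_ae (-j) (star C) f] with x h1 h2
  rw [h1, h2, inner_smul_left, inner_smul_right, ContinuousLinearMap.star_eq_adjoint,
    ContinuousLinearMap.adjoint_inner_left, fourier_neg, Complex.conj_conj]

lemma m_mem (j : ℤ) (hj : 0 ≤ j) (C : E n →L[ℂ] E n) (f : L2 n) (hf : f ∈ H2 n) :
    m j C f ∈ H2 n := by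
  rw [Submodule.mem_orthogonal] at hf ⊢
  intro u hu
  rw [← ContinuousLinearMap.adjoint_inner_left, ← ContinuousLinearMap.star_eq_adjoint, m_star]
  apply hf
  refine Submodule.span_induction (fun u ⟨k, hk, v, hv⟩ => Submodule.subset_span
    ⟨-j + k, by omega, star C v, ?_⟩) (by simp) (fun a b _ _ ha hb => by
      rw [map_add]; exact add_mem ha hb) (fun c a _ ha => by
      rw [map_smul]; exact Submodule.smul_mem _ _ ha) hu
  filter_upwards [m_ae (-j) (star C) u, hv] with x h1 h2
  rw [h1, h2, fourier_add]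
  simp [smul_smul]

noncomputable def w (v : E n) : L2 n := Lp.const 2 μ v

lemma w_ae (v : E n) : w v =ᵐ[μ] fun _ => v := Lp.coeFn_const _ _ _

lemma w_mem (v : E n) : w v ∈ H2 n := by
  rw [Submodule.mem_orthogonal']
  intro u hu
  refine Submodule.span_induction (fun u ⟨k, hk, v', hv⟩ => ?_) (by simp)
    (fun a b _ _ ha hb => by rw [inner_add_right, ha, hb, add_zero])
    (fun c a _ ha => by rw [inner_smul_right, ha, mul_zero]) hu
  rw [L2.inner_def, integral_congr_ae (g := fun x => fourier k x * ⟪v, v'⟫_ℂ) (by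
    filter_upwards [w_ae v, hv] with x h1 h2
    rw [h1, h2, inner_smul_right]), integral_mul_const]
  have := congrFun (fourierCoeff_fourier (T := 1) k) 0
  simp only [fourierCoeff, neg_zero, fourier_zero, one_smul, Pi.single_eq_of_ne hk.ne'] at this
  rw [this, zero_mul]

theorem aux : ∃ (n : ℕ) (Φ B : Cir → Mat n) (T : H2 n →L[ℂ] H2 n),
    (∀ i j, MemLp (fun x => Φ x i j) ∞ μ) ∧ Potapov B ∧ (∀ f : H2 n, ∃ g : L2 n,
      (g =ᵐ[μ] fun x => toEuclideanCLM (𝕜 := ℂ) (Φ x) ((f : L2 n) x)) ∧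
      T f = (H2 n).orthogonalProjection g) ∧ Subnormal T ∧
      (∀ x, Φ x = B x * (Φ x)ᴴ) ∧ ¬ IsStarNormal T ∧ ¬ Analytic Φ := by
  let q : Mat 2 := !![1, 0; 0, 0]
  let d : Mat 2 := !![0, 0; 0, 1]
  have q1 : q * q = q := by ext i j; fin_cases i <;> fin_cases j <;> simp [q, mul_apply]
  have d1 : d * d = d := by ext i j; fin_cases i <;> fin_cases j <;> simp [d, mul_apply]
  have q2 : star q = q := by ext i j; fin_cases i <;> fin_cases j <;> simp [q]
  have d2 : star d = d := by ext i j; fin_cases i <;> fin_cases j <;> simp [d]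
  have qd : q * d = 0 := by ext i j; fin_cases i <;> fin_cases j <;> simp [q, d, mul_apply]
  have dq : d * q = 0 := by ext i j; fin_cases i <;> fin_cases j <;> simp [q, d, mul_apply]
  set Q := toEuclideanCLM (𝕜 := ℂ) q with hQ
  set D := toEuclideanCLM (𝕜 := ℂ) d with hD
  have Q1 : Q * Q = Q := by rw [hQ, ← map_mul, q1]
  have D1 : D * D = D := by rw [hD, ← map_mul, d1]
  have Q2 : star Q = Q := by rw [hQ, ← map_star, q2]
  have D2 : star D = D := by rw [hD, ← map_star, d2]
  have QD : Q * D = 0 := by rw [hQ, hD, ← map_mul, qd, map_zero]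
  have DQ : D * Q = 0 := by rw [hQ, hD, ← map_mul, dq, map_zero]
  set P := (H2 2).starProjection with hP
  have P2 : star P = P := isSelfAdjoint_starProjection _
  have Pm : ∀ f ∈ H2 2, P f = f := fun f hf => Submodule.starProjection_eq_self_iff.2 hf
  have PQ : m 0 Q * P = P * m 0 Q := by
    have e : P * m 0 Q * P = m 0 Q * P := by
      ext1 f
      exact Pm _ (m_mem 0 le_rfl Q _ (Submodule.starProjection_apply_mem _ f))
    have e2 := congrArg star e
    rw [star_mul, star_mul, star_mul, P2, m_star, neg_zero, Q2, ← mul_assoc] at e2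
    rw [← e, e2]
  set A := m 1 Q + m (-1) Q with hA
  have A2 : star A = A := by rw [hA, star_add, m_star, m_star, Q2, neg_neg, add_comm]
  have AQ : A * m 0 Q = A := by rw [hA, add_mul, m_mul, m_mul, Q1, add_zero, add_zero]
  have AD : ∀ j, P * A * P * m j D = 0 := fun j => by
    rw [← AQ, mul_assoc P, mul_assoc A, PQ, mul_assoc, mul_assoc, mul_assoc, m_mul, QD, m_zero]
    simp
  have DA : ∀ j, m j D * (P * A * P) = 0 := fun j => by
    have := congrArg star (AD (-j))
    rwa [star_mul, star_mul, star_mul, m_star, neg_neg, D2, P2, A2, star_zero, ← mul_assoc P]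
      at this
  let T : H2 2 →L[ℂ] H2 2 := (H2 2).orthogonalProjection ∘L (A + m 1 D) ∘L (H2 2).subtypeL
  have hT : ∀ f : H2 2, (T f : L2 2) = P (A f) + m 1 D f := fun f => by
    change P (A f + m 1 D f) = _
    rw [map_add, Pm _ (m_mem 1 zero_le_one D _ f.2)]
  refine ⟨2, fun x => (fourier 1 x + fourier (-1) x) • q + fourier 1 x • d,
    fun x => (fourier 1 x • d + (1 - d)) * (fourier 1 x • d + (1 - d)), T, fun i j => ?_,
    ⟨1, one_mem _, [(0, d), (0, d)], ?_, fun x => by simp⟩, fun f => ⟨(A + m 1 D) f, ?_, rfl⟩,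
    ⟨L2 2, inferInstance, inferInstance, inferInstance, P * A * P + m 1 D, (H2 2).subtypeₗᵢ,
      (normal_iff _).2 ⟨?_⟩, fun f => ?_⟩, fun x => ?_, fun hN => ?_, fun hA => ?_⟩
  · have hc : Continuous fun x : Cir =>
        ((fourier 1 x + fourier (-1) x) • q + fourier 1 x • d) i j := by
      simp only [Matrix.add_apply, Matrix.smul_apply]
      fun_prop
    obtain ⟨C, hC⟩ := isCompact_univ.exists_bound_of_continuousOn hc.continuousOn
    exact memLp_top_of_bound hc.aestronglyMeasurable C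
      (Filter.Eventually.of_forall fun x => hC x trivial)
  · have : d ≠ 0 := fun h => by simpa [d] using congrFun (congrFun h 1) 1
    have d3 : dᴴ = d := d2
    simp [d1, this, d3]
  · filter_upwards [m_ae 1 Q f, m_ae (-1) Q f, m_ae 1 D f, Lp.coeFn_add (m 1 Q f) (m (-1) Q f),
      Lp.coeFn_add (A f) (m 1 D f)] with x h1 h2 h3 h4 h5
    rw [ContinuousLinearMap.add_apply, h5, Pi.add_apply, hA, ContinuousLinearMap.add_apply, h4,
      Pi.add_apply, h1, h2, h3, map_add, map_smul, map_smul, ← hQ, ← hD]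
    simp [add_smul]
  · have e : star (P * A * P + m 1 D) = P * A * P + m (-1) D := by
      rw [star_add, star_mul, star_mul, P2, A2, m_star, D2, mul_assoc]
    rw [Commute, SemiconjBy, e]
    simp only [mul_add, add_mul, AD, DA, m_mul, add_neg_cancel, neg_add_cancel]
  · change P (A (P f)) + m 1 D f = (T f : L2 2)
    rw [hT, Pm _ f.2]
  · have h1 : fourier 1 x * fourier (-1) x = (1 : ℂ) := by rw [← fourier_add]; simp
    have h2 : conj (fourier 1 x) = (fourier (-1) x : ℂ) := fourier_neg.symm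
    have h3 : conj (fourier (-1) x) = (fourier 1 x : ℂ) := by rw [← h2, Complex.conj_conj]
    beta_reduce
    generalize (fourier 1 x : ℂ) = a at *
    generalize (fourier (-1) x : ℂ) = b at *
    ext i j
    fin_cases i <;> fin_cases j <;> simp [q, d, Matrix.mul_apply, h2, h3, one_apply]
    · ring
    · rw [mul_assoc, h1, mul_one]
  · let v : E 2 := EuclideanSpace.single 1 1
    have Dv : D v = v := by
      ext i
      rw [hD, ofLp_toEuclideanCLM]
      fin_cases i <;> simp [d, v, mulVec, dotProduct]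
    have Dw : m 0 D (w v) = w v := Lp.ext (by
      filter_upwards [m_ae 0 D (w v), w_ae v] with x h1 h2
      rw [h1, h2, Dv]; simp)
    let f : H2 2 := ⟨w v, w_mem v⟩
    have h1 : star T f = 0 := by
      refine ext_inner_right ℂ fun g => ?_
      rw [ContinuousLinearMap.star_eq_adjoint, ContinuousLinearMap.adjoint_inner_left,
        inner_zero_left, Submodule.coe_inner, hT, inner_add_right, ← Pm _ g.2]
      change ⟪w v, (P * A * P) g⟫_ℂ + ⟪w v, m 1 D (P g)⟫_ℂ = 0
      rw [Pm _ g.2, ← ContinuousLinearMap.adjoint_inner_left,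
        ← ContinuousLinearMap.adjoint_inner_left, ← ContinuousLinearMap.star_eq_adjoint,
        ← ContinuousLinearMap.star_eq_adjoint, star_mul, star_mul, P2, A2, m_star, D2, ← mul_assoc,
        ← Dw, ← ContinuousLinearMap.mul_apply, AD, Dw, ContinuousLinearMap.zero_apply,
        inner_zero_left, zero_add]
      refine (Submodule.mem_orthogonal _ _).1 g.2 _ (Submodule.subset_span ⟨-1, by omega, v, ?_⟩)
      filter_upwards [m_ae (-1) D (w v), w_ae v] with x h1 h2
      rw [h1, h2, Dv]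
    have h2 : T f = 0 := by
      rw [← inner_self_eq_zero (𝕜 := ℂ), ← ContinuousLinearMap.adjoint_inner_right,
        ← ContinuousLinearMap.star_eq_adjoint, ← ContinuousLinearMap.mul_apply,
        hN.star_comm_self.eq, ContinuousLinearMap.mul_apply, h1, map_zero, inner_zero_right]
    have h3 := hT f
    rw [h2, ← Pm _ f.2] at h3
    change (0 : L2 2) = (P * A * P) (w v) + m 1 D (P (w v)) at h3
    rw [Pm _ (w_mem v), ← Dw, ← ContinuousLinearMap.mul_apply, AD, Dw] at h3
    have h4 := congrArg (m (-1) D) h3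
    rw [map_zero, ContinuousLinearMap.zero_apply, zero_add, ← ContinuousLinearMap.mul_apply, m_mul,
      D1, neg_add_cancel, Dw] at h4
    have h5 : ‖w v‖ = 1 := by simp [w, Lp.norm_const, v]
    rw [← h4] at h5
    simp at h5
  · have h1 := hA 0 0 (-1) (by omega)
    have h2 : (fun x : Cir => ((fourier 1 x + fourier (-1) x) • q + fourier 1 x • d) 0 0) =
        ⇑(fourier (T := 1) 1) + ⇑(fourier (T := 1) (-1)) := by
      funext x; simp [q, d]
    have hi : ∀ k, Integrable (fourier (T := 1) k) μ := fun k =>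
      (fourier k).continuous.integrable_of_hasCompactSupport (HasCompactSupport.of_compactSpace _)
    rw [h2, fourierCoeff.add (hi _) (hi _), fourierCoeff_fourier, fourierCoeff_fourier] at h1
    simp at h1

theorem result : ∃ (n : ℕ) (Φ B : Cir → Mat n) (T : Hardy n →L[ℂ] Hardy n),
    (∀ i j, MemLp (fun x => Φ x i j) ∞ μ) ∧ Potapov B ∧ IsToeplitz Φ T ∧ Subnormal T ∧
      (∀ x, Φ x = B x * (Φ x)ᴴ) ∧ ¬ Normal T ∧ ¬ Analytic Φ := by
  obtain ⟨n, Φ, B, T, h1, h2, h3, h4, h5, h6, h7⟩ := aux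
  refine ⟨n, Φ, B, T, h1, h2, fun f => ?_, h4, h5, fun h => h6 ((normal_iff T).1 h), h7⟩
  obtain ⟨g, a1, a2⟩ := h3 f
  refine ⟨g, a1, ?_⟩
  have := Submodule.sub_starProjection_mem_orthogonal (K := H2 n) g
  rw [Submodule.starProjection_apply, ← a2] at this
  exact this

end Pool.Agent.Results.MP_e84edf_an.Counter
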